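import Pool.Agent.N20.DI.Stm

/-!
# Project DI, piece CL3: central characters and restriction to a normal subgroup
-/

set_option autoImplicit false

open scoped Classical BigOperators

noncomputable section

namespace Pool.Agent.N565.DI

open Pool.Agent.Y63.NV
open Pool.Agent.Y930.NV
open Pool.Agent.Y63.AWC (IsIrreducibleCharacter)
open Pool.Agent.N20.DI

theorem om_restrict {M : Type} [Group M] [Fintype M] (N : Subgroup M) [Fintype N] {χ : M → ℂ}
    {ψ : N → ℂ} (hχ : IsIrreducibleCharacter χ) {t : ℕ}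
    (ht : χ 1 = t * ψ 1)
    (hsum : ∀ f : M → ℂ, (∀ g x : M, f (g * x * g⁻¹) = f x) →
      ∑ n : N, f n * χ n = t * ∑ n : N, f n * ψ n) (f : M → ℂ) (hf : Cf f)
    (h0 : ∀ x, x ∉ N → f x = 0) : om χ f = om ψ (fun n : N => f n) := by
  have h1 : ∑ g : M, f g * χ g = ∑ n : N, f n * χ n := by
    have h2 : ∑ g ∈ Finset.univ.filter (fun g : M => g ∈ N), f g * χ g =
        ∑ n : N, f n * χ n :=
      Finset.sum_subtype (p := fun g : M => g ∈ N)
        (Finset.univ.filter fun g : M => g ∈ N) (fun g => by simp) (fun g => f g * χ g)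
    rw [← h2]
    symm
    refine Finset.sum_subset (Finset.filter_subset _ _) fun g _ hg => ?_
    have h3 : g ∉ N := fun h => hg (Finset.mem_filter.2 ⟨Finset.mem_univ _, h⟩)
    rw [h0 g h3, zero_mul]
  have ht0 : (t : ℂ) ≠ 0 := by
    intro h
    apply irr_one_ne hχ
    rw [ht, h, zero_mul]
  unfold om
  rw [h1, hsum f hf, ht, mul_div_mul_left _ _ ht0]

theorem expand_gen {F : Type} [Field F] (red : integralClosure ℤ ℂ →+* F) {J : Type} [Group J]
    [Fintype J] {ψ : J → ℂ} (hψ : IsIrreducibleCharacter ψ) {ι : Type} [Fintype ι] (z : ι → F)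
    (k : ι → J → ℤ) (hk : ∀ C, Cf (k C)) (w : J → F)
    (hw : ∀ x, w x = ∑ C, z C * ((k C x : ℤ) : F)) :
    ∑ C, z C * R red ψ (k C) = ∑ D : ConjClasses J, w D.out * R red ψ (ind ℤ D) := by
  have h3 : ∀ C : ι, z C * R red ψ (k C) =
      ∑ D : ConjClasses J, z C * ((k C D.out : ℤ) : F) * R red ψ (ind ℤ D) := by
    intro C
    rw [R_expand red hψ (hk C), Finset.mul_sum]
    exact Finset.sum_congr rfl fun D _ => by rw [mul_assoc]
  rw [Finset.sum_congr rfl fun C _ => h3 C, Finset.sum_comm]
  refine Finset.sum_congr rfl fun D _ => ?_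
  rw [hw, Finset.sum_mul]

theorem expand_ind {F : Type} [Field F] {M : Type} [Group M] [Fintype M] {z : M → F} (hz : Cf z)
    (x : M) : z x = ∑ C : ConjClasses M, z C.out * ((ind ℤ C x : ℤ) : F) := by
  have h4 : ∀ C : ConjClasses M, z C.out * ((ind ℤ C x : ℤ) : F) = z C.out * ind F C x := by
    intro C
    have e : ((ind ℤ C x : ℤ) : F) = ind F C x := by
      unfold ind
      split_ifs <;> simp
    rw [e]
  rw [Finset.sum_congr rfl fun C _ => h4 C, ← Cf_expand hz x]

theorem CL3 : S_CL3 := by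
  intro F _ red M _ _ N _ _ z hz hz0 χ ψ hχ hψ t ht hsum
  have hz' : Cf z := hz
  rw [centralValue_eq red hχ, centralValue_eq red hψ]
  have hcf : ∀ C : ConjClasses M, Cf (fun n : N => ind ℤ C (n : M)) :=
    fun C u y => Cf_ind ℤ C (u : M) (y : M)
  have h1 : ∀ C : ConjClasses M, z C.out * R red χ (ind ℤ C) =
      z C.out * R red ψ (fun n : N => ind ℤ C (n : M)) := by
    intro C
    by_cases hC : C.out ∈ N
    · congr 1
      unfold R
      congr 1
      refine om_restrict N hχ ht hsum (fun g => ((ind ℤ C g : ℤ) : ℂ)) ?_ ?_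
      · intro g x
        show ((ind ℤ C (g * x * g⁻¹) : ℤ) : ℂ) = _
        rw [Cf_ind ℤ C g x]
      · intro x hx
        have h2 : ConjClasses.mk x ≠ C := by
          intro h
          apply hx
          rw [← mk_out C, ConjClasses.mk_eq_mk_iff_isConj, isConj_comm, isConj_iff] at h
          obtain ⟨c, hc⟩ := h
          rw [← hc]
          exact Subgroup.Normal.conj_mem inferInstance _ hC c
        show ((ind ℤ C x : ℤ) : ℂ) = 0
        unfold ind
        rw [if_neg h2, Int.cast_zero]
    · rw [hz0 _ hC, zero_mul, zero_mul]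
  rw [Finset.sum_congr rfl fun C _ => h1 C]
  exact expand_gen red hψ (fun C : ConjClasses M => z C.out) (fun C n => ind ℤ C (n : M)) hcf
    (fun n => z n) fun n => expand_ind hz' (n : M)

end Pool.Agent.N565.DI
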