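import Pool.Agent.N404.KL.Stm
import Pool.Agent.N97.LF_SPA

/-!
# Project KL, piece SPA2: small sets of a random lift span few edges, constant `6/5`
-/

set_option autoImplicit false

namespace Pool.Agent.N565.KLSPA2

open Finset Classical Pool.Agent.N404.LF Pool.Agent.N97.LF

section

variable {V I : Type} [Fintype V] [Fintype I] [DecidableEq I] (s t : I → V)

omit [Fintype V] in
/-- one set `U` -/
lemma one_set' {N : ℕ} (U : Finset (V × Fin N)) (e : ℕ) :
    N ^ e * (univ.filter fun π : I → Equiv.Perm (Fin N) => e ≤ eU s t π U).card ≤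
    (2 ^ Fintype.card I) ^ U.card * U.card ^ e * N.factorial ^ Fintype.card I := by
  set E : Finset (I × Fin N) := univ.filter fun p => (s p.1, p.2) ∈ U with hE
  have hEc : E.card ≤ Fintype.card I * U.card := by
    have h1 : E.card ≤ ((univ : Finset I) ×ˢ U).card := by
      refine card_le_card_of_injOn (fun p => (p.1, (s p.1, p.2))) ?_ ?_
      · intro p hp
        exact mem_coe.2 (mem_product.2 ⟨mem_univ _, (mem_filter.1 (mem_coe.1 hp)).2⟩)
      · rintro ⟨i, a⟩ _ ⟨j, b⟩ _ h
        simp only [Prod.mk.injEq] at h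
        rw [Prod.mk.injEq]
        exact ⟨h.1, h.2.2⟩
    rwa [card_product, card_univ] at h1
  have h1 : (univ.filter fun π : I → Equiv.Perm (Fin N) => e ≤ eU s t π U) ⊆
      (powersetCard e E).biUnion fun S => fam t S U := by
    intro π hπ
    have hπ' := (mem_filter.1 hπ).2
    unfold eU at hπ'
    obtain ⟨S, hS, hSc⟩ := exists_subset_card_eq hπ'
    rw [mem_biUnion]
    refine ⟨S, mem_powersetCard.2 ⟨fun p hp => ?_, hSc⟩, mem_filter.2 ⟨mem_univ _, fun p hp => ?_⟩⟩
    · exact mem_filter.2 ⟨mem_univ _, (mem_filter.1 (hS hp)).2.1⟩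
    · exact (mem_filter.1 (hS hp)).2.2
  have h2 : (powersetCard e E).card ≤ (2 ^ Fintype.card I) ^ U.card := by
    calc (powersetCard e E).card ≤ E.powerset.card :=
          card_le_card fun S hS => mem_powerset.2 (mem_powersetCard.1 hS).1
      _ = 2 ^ E.card := card_powerset _
      _ ≤ 2 ^ (Fintype.card I * U.card) := Nat.pow_le_pow_right (by norm_num) hEc
      _ = _ := pow_mul _ _ _
  calc N ^ e * (univ.filter fun π : I → Equiv.Perm (Fin N) => e ≤ eU s t π U).card
      ≤ N ^ e * ∑ S ∈ powersetCard e E, (fam t S U).card :=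
        Nat.mul_le_mul_left _ ((card_le_card h1).trans card_biUnion_le)
    _ = ∑ S ∈ powersetCard e E, N ^ e * (fam t S U).card := mul_sum _ _ _
    _ ≤ ∑ S ∈ powersetCard e E, U.card ^ e * N.factorial ^ Fintype.card I := by
        refine sum_le_sum fun S hS => ?_
        have h3 := fam_card t S U
        rwa [(mem_powersetCard.1 hS).2] at h3
    _ = (powersetCard e E).card * (U.card ^ e * N.factorial ^ Fintype.card I) := by
        rw [sum_const, smul_eq_mul]
    _ ≤ (2 ^ Fintype.card I) ^ U.card * (U.card ^ e * N.factorial ^ Fintype.card I) :=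
        Nat.mul_le_mul_right _ h2
    _ = _ := by ring

/-- the sets with `u` elements -/
lemma size' {N : ℕ} (hN : 0 < N) (u r : ℕ) :
    N ^ r * (univ.filter fun π : I → Equiv.Perm (Fin N) => ∃ U : Finset (V × Fin N),
      U.card = u ∧ u + r ≤ eU s t π U).card ≤
    (3 * Fintype.card V * 2 ^ Fintype.card I) ^ u * u ^ r * N.factorial ^ Fintype.card I := by
  set B := (univ.filter fun π : I → Equiv.Perm (Fin N) => ∃ U : Finset (V × Fin N),
      U.card = u ∧ u + r ≤ eU s t π U).card with hB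
  set M := N.factorial ^ Fintype.card I with hM
  have h1 : B ≤ ∑ U ∈ powersetCard u (univ : Finset (V × Fin N)),
      (univ.filter fun π : I → Equiv.Perm (Fin N) => u + r ≤ eU s t π U).card := by
    rw [hB]
    refine (card_le_card ?_).trans card_biUnion_le
    intro π hπ
    obtain ⟨U, hU, hU2⟩ := (mem_filter.1 hπ).2
    rw [mem_biUnion]
    exact ⟨U, mem_powersetCard.2 ⟨subset_univ _, hU⟩, mem_filter.2 ⟨mem_univ _, hU2⟩⟩
  have h2 : N ^ (u + r) * B ≤ (Fintype.card V * N).choose u *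
      ((2 ^ Fintype.card I) ^ u * u ^ (u + r) * M) := by
    calc N ^ (u + r) * B ≤ N ^ (u + r) * ∑ U ∈ powersetCard u (univ : Finset (V × Fin N)),
        (univ.filter fun π : I → Equiv.Perm (Fin N) => u + r ≤ eU s t π U).card :=
          Nat.mul_le_mul_left _ h1
      _ = ∑ U ∈ powersetCard u (univ : Finset (V × Fin N)), N ^ (u + r) *
        (univ.filter fun π : I → Equiv.Perm (Fin N) => u + r ≤ eU s t π U).card :=
          mul_sum _ _ _
      _ ≤ ∑ U ∈ powersetCard u (univ : Finset (V × Fin N)),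
            ((2 ^ Fintype.card I) ^ u * u ^ (u + r) * M) := by
          refine sum_le_sum fun U hU => ?_
          have h3 := one_set' s t U (u + r)
          rw [(mem_powersetCard.1 hU).2] at h3
          exact h3
      _ = _ := by
          rw [sum_const, smul_eq_mul, card_powersetCard, card_univ, Fintype.card_prod,
            Fintype.card_fin]
  have h3 : u.factorial * (Fintype.card V * N).choose u ≤ (Fintype.card V * N) ^ u := by
    rw [← Nat.descFactorial_eq_factorial_mul_choose]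
    exact Nat.descFactorial_le_pow _ _
  have h4 : N ^ u * (N ^ r * B) ≤
      N ^ u * ((3 * Fintype.card V * 2 ^ Fintype.card I) ^ u * u ^ r * M) := by
    calc N ^ u * (N ^ r * B) = N ^ (u + r) * B := by ring
      _ ≤ (Fintype.card V * N).choose u * ((2 ^ Fintype.card I) ^ u * u ^ (u + r) * M) := h2
      _ = (Fintype.card V * N).choose u * u ^ u * ((2 ^ Fintype.card I) ^ u * u ^ r * M) := by
          ring
      _ ≤ (Fintype.card V * N).choose u * (3 ^ u * u.factorial) *
            ((2 ^ Fintype.card I) ^ u * u ^ r * M) :=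
          Nat.mul_le_mul_right _ (Nat.mul_le_mul_left _ (pow_self_le u))
      _ = (u.factorial * (Fintype.card V * N).choose u) *
            (3 ^ u * ((2 ^ Fintype.card I) ^ u * u ^ r * M)) := by ring
      _ ≤ (Fintype.card V * N) ^ u * (3 ^ u * ((2 ^ Fintype.card I) ^ u * u ^ r * M)) :=
          Nat.mul_le_mul_right _ h3
      _ = _ := by
          rw [mul_pow (Fintype.card V), mul_pow (3 * Fintype.card V), mul_pow 3 (Fintype.card V)]
          ring
  exact Nat.le_of_mul_le_mul_left h4 (pow_pos hN _)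

end

lemma sum5 (n : ℕ) : ∑ j ∈ range (5 * n), (1 / 2 : ℝ) ^ (j / 5) =
    5 * ∑ i ∈ range n, (1 / 2 : ℝ) ^ i := by
  induction n with
  | zero => simp
  | succ n ih =>
    rw [sum_range_succ _ n, show 5 * (n + 1) = 5 * n + 1 + 1 + 1 + 1 + 1 by ring]
    rw [sum_range_succ, sum_range_succ, sum_range_succ, sum_range_succ, sum_range_succ, ih]
    have h0 : 5 * n / 5 = n := by omega
    have h1 : (5 * n + 1) / 5 = n := by omega
    have h2 : (5 * n + 1 + 1) / 5 = n := by omega
    have h3 : (5 * n + 1 + 1 + 1) / 5 = n := by omega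
    have h4 : (5 * n + 1 + 1 + 1 + 1) / 5 = n := by omega
    rw [h0, h1, h2, h3, h4]
    ring

lemma sum10 (m : ℕ) : ∑ j ∈ range m, (1 / 2 : ℝ) ^ (j / 5) ≤ 10 := by
  calc ∑ j ∈ range m, (1 / 2 : ℝ) ^ (j / 5) ≤ ∑ j ∈ range (5 * m), (1 / 2 : ℝ) ^ (j / 5) := by
        refine sum_le_sum_of_subset_of_nonneg ?_ fun _ _ _ => by positivity
        intro j hj
        rw [mem_range] at hj ⊢
        omega
    _ = 5 * ∑ i ∈ range m, (1 / 2 : ℝ) ^ i := sum5 m
    _ ≤ 5 * 2 := by
        refine mul_le_mul_of_nonneg_left ?_ (by norm_num)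
        have h6 := Summable.sum_le_tsum (f := fun j : ℕ => (1 / 2 : ℝ) ^ j) (range m)
          (fun i _ => by positivity) summable_geometric_two
        rwa [tsum_geometric_two] at h6
    _ = 10 := by norm_num

/-- **SPA2** -/
theorem main : Pool.Agent.N404.KL.S_SPA2 := by
  intro V I _ _ _ s t
  set K : ℕ := 3 * Fintype.card V * 2 ^ Fintype.card I + 1 with hK
  refine ⟨10 * K ^ 5, fun N m hNm => ?_⟩
  rcases Nat.eq_zero_or_pos N with h0 | hN
  · subst h0
    rw [zero_mul]
    exact Nat.zero_le _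
  set M := N.factorial ^ Fintype.card I with hM
  set B : ℕ → ℕ := fun u => (univ.filter fun π : I → Equiv.Perm (Fin N) =>
    ∃ U : Finset (V × Fin N), U.card = u ∧ u + (u + 4) / 5 ≤ eU s t π U).card with hB
  have h1 : (univ.filter fun π : I → Equiv.Perm (Fin N) => ∃ U : Finset (V × Fin N),
      U.Nonempty ∧ U.card ≤ m ∧ 6 * U.card ≤ 5 * eU s t π U).card ≤
      ∑ j ∈ range m, B (j + 1) := by
    refine (card_le_card (t := (range m).biUnion fun j =>
      (univ.filter fun π : I → Equiv.Perm (Fin N) =>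
        ∃ U : Finset (V × Fin N), U.card = j + 1 ∧
          j + 1 + (j + 1 + 4) / 5 ≤ eU s t π U)) ?_).trans
      card_biUnion_le
    intro π hπ
    obtain ⟨U, hU, hU1, hU2⟩ := (mem_filter.1 hπ).2
    have hU0 := card_pos.2 hU
    rw [mem_biUnion]
    exact ⟨U.card - 1, mem_range.2 (by omega),
      mem_filter.2 ⟨mem_univ _, U, by omega, by omega⟩⟩
  have h2 : ∀ j < m, 2 ^ (j / 5) * (N * B (j + 1)) ≤ K ^ 5 * m * M := by
    intro j hj
    have hr : (j + 1 + 4) / 5 = j / 5 + 1 := by omega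
    have h3 := size' s t hN (j + 1) ((j + 1 + 4) / 5)
    have hB1 : B (j + 1) = (univ.filter fun π : I → Equiv.Perm (Fin N) =>
      ∃ U : Finset (V × Fin N), U.card = j + 1 ∧
        j + 1 + (j + 1 + 4) / 5 ≤ eU s t π U).card := rfl
    rw [← hB1, ← hM] at h3
    rw [hr] at h3
    have hKK : 3 * Fintype.card V * 2 ^ Fintype.card I ≤ K := by omega
    have hK1 : 1 ≤ K := by omega
    have h4 : (3 * Fintype.card V * 2 ^ Fintype.card I) ^ (j + 1) * (j + 1) ^ (j / 5 + 1) ≤
        (K ^ 5 * m) * (K ^ 5 * m) ^ (j / 5) := by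
      calc (3 * Fintype.card V * 2 ^ Fintype.card I) ^ (j + 1) * (j + 1) ^ (j / 5 + 1)
          ≤ K ^ (j + 1) * m ^ (j / 5 + 1) :=
            Nat.mul_le_mul (Nat.pow_le_pow_left hKK _) (Nat.pow_le_pow_left hj _)
        _ ≤ K ^ (5 * (j / 5 + 1)) * m ^ (j / 5 + 1) :=
            Nat.mul_le_mul_right _ (Nat.pow_le_pow_right hK1 (by omega))
        _ = (K ^ 5 * m) ^ (j / 5 + 1) := by rw [pow_mul, mul_pow]
        _ = _ := by ring
    have h5 : N ^ (j / 5) * (2 ^ (j / 5) * (N * B (j + 1))) ≤ N ^ (j / 5) * (K ^ 5 * m * M) := by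
      calc N ^ (j / 5) * (2 ^ (j / 5) * (N * B (j + 1)))
          = 2 ^ (j / 5) * (N ^ (j / 5 + 1) * B (j + 1)) := by ring
        _ ≤ 2 ^ (j / 5) * ((3 * Fintype.card V * 2 ^ Fintype.card I) ^ (j + 1) *
              (j + 1) ^ (j / 5 + 1) * M) := Nat.mul_le_mul_left _ h3
        _ ≤ 2 ^ (j / 5) * ((K ^ 5 * m) * (K ^ 5 * m) ^ (j / 5) * M) :=
            Nat.mul_le_mul_left _ (Nat.mul_le_mul_right _ h4)
        _ = (2 * (K ^ 5 * m)) ^ (j / 5) * (K ^ 5 * m * M) := by
            rw [mul_pow 2 (K ^ 5 * m)]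
            ring
        _ ≤ N ^ (j / 5) * (K ^ 5 * m * M) := by
            refine Nat.mul_le_mul_right _ (Nat.pow_le_pow_left ?_ _)
            refine le_trans ?_ hNm
            rw [mul_assoc 10]
            omega
    exact Nat.le_of_mul_le_mul_left h5 (pow_pos hN _)
  clear_value B M K
  have h3 : (N : ℝ) * ∑ j ∈ range m, (B (j + 1) : ℝ) ≤ 10 * K ^ 5 * m * M := by
    rw [mul_sum]
    calc ∑ j ∈ range m, (N : ℝ) * B (j + 1)
        ≤ ∑ j ∈ range m, ((K : ℝ) ^ 5 * m * M) * (1 / 2) ^ (j / 5) := by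
          refine sum_le_sum fun j hj => ?_
          have h4 : (2 : ℝ) ^ (j / 5) * (N * B (j + 1)) ≤ K ^ 5 * m * M := by
            exact_mod_cast h2 j (mem_range.1 hj)
          have h5 : (0 : ℝ) < 2 ^ (j / 5) := by positivity
          rw [one_div, inv_pow, ← div_eq_mul_inv, le_div_iff₀ h5]
          linarith
      _ = ((K : ℝ) ^ 5 * m * M) * ∑ j ∈ range m, (1 / 2 : ℝ) ^ (j / 5) := by rw [mul_sum]
      _ ≤ ((K : ℝ) ^ 5 * m * M) * 10 :=
          mul_le_mul_of_nonneg_left (sum10 m) (by positivity)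
      _ = 10 * K ^ 5 * m * M := by ring
  have h4 : N * ∑ j ∈ range m, B (j + 1) ≤ 10 * K ^ 5 * m * M := by exact_mod_cast h3
  exact (Nat.mul_le_mul_left _ h1).trans h4

end Pool.Agent.N565.KLSPA2
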