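import Mathlib
import Pool.Agent.N604.MW.Stm3
import Pool.Agent.N868.PW_PPoint

/-!
# Project PD, DMAJ: where the exponential sum over primes is large
-/

set_option autoImplicit false

open Finset Filter

namespace Pool.Agent.N565.PDM

open Pool.Agent.N604.MW
open Pool.Agent.N868.MWT
open Pool.Agent.N868.PWP (lam_nonneg sum_lam_le norm_diff_le)
open ArithmeticFunction (vonMangoldt)

/-- the sum over primes -/
noncomputable def SS (k : ℕ) (a : ℝ) (A L : ℕ) (g : ℝ) : ℂ :=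
  ∑ n ∈ range L, ((lam (A + n) : ℝ) : ℂ) * e (g * (a * ((A + n : ℕ) : ℝ) ^ k))

/-- if the sum with the integer parts is large then a sum over primes is large -/
theorem large_freq (h2 : S_FLOOR) (k : ℕ) (a : ℝ) (C0 : ℕ) (σ₁ : ℝ) (hσ₁ : 0 < σ₁) :
    ∃ X0 : ℕ, ∀ X A L : ℕ, X0 ≤ X → A + L ≤ C0 * X → ∀ α : ℝ, |α| ≤ 1 / 2 →
      (X : ℝ) ^ (1 - σ₁ / 4) < ‖TT k a A L α‖ →
      ∃ h : ℤ, |α + h| ≤ (X : ℝ) ^ σ₁ ∧ (X : ℝ) ^ (1 - σ₁) < ‖SS k a A L (α + h)‖ := by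
  obtain ⟨cc, hcc1, hcc2, hcc3⟩ := h2
  obtain ⟨K, hK⟩ : ∃ K : ℝ, K = ∑' h : ℤ, Mj h := ⟨_, rfl⟩
  obtain ⟨D0, hD0⟩ : ∃ D : ℝ, D = (Real.log 4 + 4) * C0 := ⟨_, rfl⟩
  have hl4 : 0 ≤ Real.log 4 := Real.log_nonneg (by norm_num)
  have hC0 : (0 : ℝ) ≤ D0 := by
    rw [hD0]
    positivity
  have hK0 : 0 ≤ K := by
    rw [hK]
    exact tsum_nonneg Mj_nonneg
  obtain ⟨X0, hX0⟩ := eventually_atTop.1 (((ev_rpow (σ₁ / 4) (K * (D0 + 1)) (by positivity)).and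
    (ev_rpow σ₁ 2 hσ₁)).and (eventually_ge_atTop 1))
  refine ⟨X0, ?_⟩
  intro X A L hX hAL α hα2 hbig
  obtain ⟨⟨e1, e2⟩, e3⟩ := hX0 X hX
  have hX1 : (1 : ℝ) ≤ X := by exact_mod_cast e3
  have hXp : (0 : ℝ) < X := by linarith
  by_contra hcon
  push Not at hcon
  obtain ⟨S, hS⟩ : ∃ S : ℝ → ℂ, S = fun β => ∑ n ∈ range L, ((lam (A + n) : ℝ) : ℂ) *
      e (β * (a * ((A + n : ℕ) : ℝ) ^ k)) :=
    ⟨_, rfl⟩
  have hsum : HasSum (fun h : ℤ => cc (α + h) * S (α + h)) (TT k a A L α) := by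
    have h3 := hasSum_sum (s := range L) (fun n _ =>
      (hcc3 α (a * ((A + n : ℕ) : ℝ) ^ k)).mul_left ((lam (A + n) : ℝ) : ℂ))
    have h4 : (fun h : ℤ => cc (α + h) * S (α + h)) = fun h : ℤ => ∑ n ∈ range L,
        ((lam (A + n) : ℝ) : ℂ) * (cc (α + h) * e ((α + h) * (a * ((A + n : ℕ) : ℝ) ^ k))) := by
      funext h
      rw [hS, Finset.mul_sum]
      refine Finset.sum_congr rfl fun n _ => ?_
      ring
    have h5 : TT k a A L α = ∑ n ∈ range L, ((lam (A + n) : ℝ) : ℂ) *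
        (((Real.sin (Real.pi * (a * ((A + n : ℕ) : ℝ) ^ k)) ^ 2 : ℝ) : ℂ) *
          e (α * (⌊a * ((A + n : ℕ) : ℝ) ^ k⌋ : ℤ))) := by
      unfold TT
      refine Finset.sum_congr rfl fun n _ => ?_
      rw [Complex.ofReal_mul, mul_assoc]
    rw [h4, h5]
    exact h3
  have hSL : ∀ β, ‖S β‖ ≤ D0 * X := by
    intro β
    rw [hS]
    refine (norm_sum_le _ _).trans ?_
    have h3 : ∀ n ∈ range L, ‖((lam (A + n) : ℝ) : ℂ) * e (β * (a * ((A + n : ℕ) : ℝ) ^ k))‖ =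
        lam (A + n) := by
      intro n _
      rw [norm_mul, norm_e, mul_one, Complex.norm_real, Real.norm_of_nonneg (lam_nonneg _)]
    rw [Finset.sum_congr rfl h3]
    refine (sum_lam_le hAL).trans (le_of_eq ?_)
    rw [hD0]
    push_cast
    ring
  obtain ⟨Y, hY⟩ : ∃ Y : ℝ, Y = (D0 + 1) * (X : ℝ) ^ (1 - σ₁ / 2) := ⟨_, rfl⟩
  have hY0 : 0 ≤ Y := by
    rw [hY]
    positivity
  have hbd : ∀ h : ℤ, ‖cc (α + h) * S (α + h)‖ ≤ Y * Mj h := by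
    intro h
    rw [norm_mul]
    obtain ⟨f1, f2⟩ := cc_le cc hcc1 hcc2 hα2 h
    rcases le_or_gt |α + h| ((X : ℝ) ^ σ₁) with hb | hb
    · have f4 : ‖S (α + h)‖ ≤ (X : ℝ) ^ (1 - σ₁) := by
        rw [hS]
        exact hcon h hb
      have f5 : (X : ℝ) ^ (1 - σ₁) ≤ Y := by
        rw [hY]
        have f6 : (X : ℝ) ^ (1 - σ₁) ≤ (X : ℝ) ^ (1 - σ₁ / 2) :=
          Real.rpow_le_rpow_of_exponent_le hX1 (by linarith)
        have f7 : 0 ≤ D0 * (X : ℝ) ^ (1 - σ₁ / 2) := by positivity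
        linarith
      rw [mul_comm Y]
      exact mul_le_mul f1 (f4.trans f5) (norm_nonneg _) (Mj_nonneg h)
    · have f3 : |α + h| ^ (-(1 / 2) : ℝ) ≤ (X : ℝ) ^ (-(σ₁ / 2)) := by
        have f4 : |α + h| ^ (-(1 / 2) : ℝ) ≤ ((X : ℝ) ^ σ₁) ^ (-(1 / 2) : ℝ) :=
          Real.rpow_le_rpow_of_nonpos (by positivity) hb.le (by norm_num)
        rw [← Real.rpow_mul hXp.le] at f4
        rwa [show σ₁ * (-(1 / 2)) = -(σ₁ / 2) by ring] at f4
      have f5 : ‖cc (α + h)‖ ≤ (X : ℝ) ^ (-(σ₁ / 2)) * Mj h :=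
        (f2 (by linarith)).trans (mul_le_mul_of_nonneg_right f3 (Mj_nonneg h))
      have f6 : (X : ℝ) ^ (1 - σ₁ / 2) = (X : ℝ) ^ (-(σ₁ / 2)) * X := by
        nth_rewrite 3 [← Real.rpow_one (X : ℝ)]
        rw [← Real.rpow_add hXp]
        congr 1
        ring
      have f7 : (X : ℝ) ^ (-(σ₁ / 2)) * Mj h * (D0 * X) ≤ Y * Mj h := by
        rw [hY, f6]
        have : 0 ≤ (X : ℝ) ^ (-(σ₁ / 2)) * X * Mj h :=
          mul_nonneg (by positivity) (Mj_nonneg h)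
        nlinarith
      refine le_trans ?_ f7
      exact mul_le_mul f5 (hSL _) (norm_nonneg _)
        (mul_nonneg (by positivity) (Mj_nonneg h))
  have htot := tsum_of_norm_bounded ((summable_Mj.mul_left Y).hasSum) hbd
  rw [hsum.tsum_eq, tsum_mul_left, ← hK] at htot
  refine absurd (htot.trans ?_) (not_le.2 hbig)
  have g1 : (X : ℝ) ^ (1 - σ₁ / 4) = (X : ℝ) ^ (1 - σ₁ / 2) * (X : ℝ) ^ (σ₁ / 4) := by
    rw [← Real.rpow_add hXp]
    congr 1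
    ring
  rw [g1, hY]
  have g2 : 0 ≤ (X : ℝ) ^ (1 - σ₁ / 2) := by positivity
  nlinarith

/-- a large sum over primes gives a rational approximation -/
theorem approx (h1 : S_PWEYL) (k : ℕ) (a : ℝ) (C0 : ℕ) (hk : 2 ≤ k) :
    ∃ m : ℝ, 0 < m ∧ ∀ σ : ℝ, 0 < σ → σ ≤ 1 / 20 → ∃ X0 : ℕ, ∀ X A L : ℕ, X0 ≤ X →
      A + L ≤ C0 * X → ∀ g : ℝ, (X : ℝ) ^ (1 - 4 * σ) < ‖SS k a A L g‖ →
      ∃ q : ℕ, ∃ a' : ℤ, 1 ≤ q ∧ (q : ℝ) ≤ (X : ℝ) ^ (m * σ) ∧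
        |q * (a * g) - a'| ≤ (X : ℝ) ^ (m * σ - k) := by
  obtain ⟨C, m, hC⟩ := h1 k C0 hk
  obtain ⟨Kψ, hKψ⟩ := Chebyshev.psi_sub_theta_le_mul_sqrt
  refine ⟨5 * m + 1, by positivity, ?_⟩
  intro σ hσ0 hσ1
  have hev_log : ∀ᶠ X : ℕ in atTop, 1 + Real.log X ≤ (X : ℝ) ^ (5 * σ) := by
    have h1 := (isLittleO_log_rpow_atTop (show 0 < 5 * σ by positivity)).bound
      (show (0 : ℝ) < 1 / 2 by norm_num)
    have h2 := tendsto_natCast_atTop_atTop (R := ℝ) |>.eventually h1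
    filter_upwards [h2, ev_rpow (5 * σ) 2 (by positivity), eventually_ge_atTop 1] with X h2 h3 h4
    have h5 : (1 : ℝ) ≤ X := by exact_mod_cast h4
    rw [Real.norm_of_nonneg (Real.log_nonneg h5), Real.norm_of_nonneg (by positivity)] at h2
    linarith
  have hev_diff : ∀ᶠ X : ℕ in atTop, Kψ * Real.sqrt ((C0 * X : ℕ) : ℝ) ≤
      (X : ℝ) ^ (1 - 4 * σ) / 2 := by
    have h1 := ev_rpow (1 / 4) (2 * (|Kψ| * Real.sqrt C0)) (by norm_num)
    filter_upwards [h1, eventually_ge_atTop 1] with X h1 h4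
    have h5 : (1 : ℝ) ≤ X := by exact_mod_cast h4
    have h6 : (0 : ℝ) < X := by linarith
    have h7 : Real.sqrt ((C0 * X : ℕ) : ℝ) = Real.sqrt C0 * (X : ℝ) ^ (1 / 2 : ℝ) := by
      rw [Nat.cast_mul, Real.sqrt_mul (Nat.cast_nonneg _), Real.sqrt_eq_rpow (X : ℝ)]
    have h8 : (X : ℝ) ^ (1 / 4 : ℝ) * (X : ℝ) ^ (1 / 2 : ℝ) ≤ (X : ℝ) ^ (1 - 4 * σ) := by
      rw [← Real.rpow_add h6]
      exact Real.rpow_le_rpow_of_exponent_le h5 (by linarith)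
    have h9 : Kψ ≤ |Kψ| := le_abs_self _
    have h10 : 0 ≤ Real.sqrt C0 * (X : ℝ) ^ (1 / 2 : ℝ) := by positivity
    have h11 : 0 ≤ (X : ℝ) ^ (1 / 2 : ℝ) := by positivity
    rw [h7]
    nlinarith
  obtain ⟨X0, hX0⟩ := eventually_atTop.1 ((hev_log.and hev_diff).and ((eventually_ge_atTop 1).and
    ((ev_rpow σ 2 hσ0).and (ev_rpow σ C hσ0))))
  refine ⟨X0, ?_⟩
  intro X A L hX hAL g hbig
  obtain ⟨⟨e1, e2⟩, e3, e4, e5⟩ := hX0 X hX
  have hX1 : (1 : ℝ) ≤ X := by exact_mod_cast e3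
  have hXp : (0 : ℝ) < X := by linarith
  have hbig' : (X : ℝ) ≤ (X : ℝ) ^ (5 * σ) * ‖∑ n ∈ range L, ((vonMangoldt (A + n) : ℝ) : ℂ) *
      e (∑ j ∈ range (k + 1), (fun j => if j = k then a * g else 0) j *
        ((A + n : ℕ) : ℝ) ^ j)‖ := by
    have f0 : ∀ n : ℕ, ∑ j ∈ range (k + 1), (fun j => if j = k then a * g else 0) j *
        ((A + n : ℕ) : ℝ) ^ j = g * (a * ((A + n : ℕ) : ℝ) ^ k) := by
      intro n
      rw [Finset.sum_eq_single k]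
      · simp only [if_true]
        ring
      · intro j _ hj
        simp only [if_neg hj, zero_mul]
      · intro h
        exact absurd (Finset.mem_range.2 (Nat.lt_succ_self k)) h
    simp only [f0]
    have f1 := norm_diff_le hKψ hAL (fun n => e (g * (a * ((A + n : ℕ) : ℝ) ^ k)))
      (fun n => norm_e _)
    have f2 := norm_sub_norm_le (∑ n ∈ range L, ((lam (A + n) : ℝ) : ℂ) *
      e (g * (a * ((A + n : ℕ) : ℝ) ^ k))) (∑ n ∈ range L, ((vonMangoldt (A + n) : ℝ) : ℂ) *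
      e (g * (a * ((A + n : ℕ) : ℝ) ^ k)))
    rw [norm_sub_rev] at f2
    unfold SS at hbig
    have f3 : (X : ℝ) ^ (1 - 4 * σ) / 2 ≤ ‖∑ n ∈ range L, ((vonMangoldt (A + n) : ℝ) : ℂ) *
      e (g * (a * ((A + n : ℕ) : ℝ) ^ k))‖ := by linarith
    have f4 : (X : ℝ) ^ (5 * σ) * ((X : ℝ) ^ (1 - 4 * σ) / 2) = (X : ℝ) * ((X : ℝ) ^ σ / 2) := by
      have f5 : (X : ℝ) ^ (5 * σ) * (X : ℝ) ^ (1 - 4 * σ) = (X : ℝ) * (X : ℝ) ^ σ := by
        nth_rewrite 3 [← Real.rpow_one (X : ℝ)]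
        rw [← Real.rpow_add hXp, ← Real.rpow_add hXp]
        congr 1
        ring
      linear_combination f5 / 2
    calc (X : ℝ) ≤ (X : ℝ) * ((X : ℝ) ^ σ / 2) := le_mul_of_one_le_right hXp.le (by linarith)
      _ = (X : ℝ) ^ (5 * σ) * ((X : ℝ) ^ (1 - 4 * σ) / 2) := f4.symm
      _ ≤ _ := mul_le_mul_of_nonneg_left f3 (by positivity)
  obtain ⟨q, hq1, hq, ⟨a', ha⟩, -⟩ := hC (fun j => if j = k then a * g else 0) X A L
    ((X : ℝ) ^ (5 * σ)) e3 hAL e1 hbig'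
  simp only [if_true] at ha
  have hU : (C : ℝ) * ((X : ℝ) ^ (5 * σ)) ^ m ≤ (X : ℝ) ^ ((5 * m + 1) * σ) := by
    have f1 : ((X : ℝ) ^ (5 * σ)) ^ m = (X : ℝ) ^ (5 * σ * m) := by
      rw [← Real.rpow_natCast, ← Real.rpow_mul hXp.le]
    have f2 : (X : ℝ) ^ ((5 * m + 1) * σ) = (X : ℝ) ^ σ * (X : ℝ) ^ (5 * σ * m) := by
      rw [← Real.rpow_add hXp]
      congr 1
      ring
    rw [f1, f2]
    exact mul_le_mul_of_nonneg_right e5.le (by positivity)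
  refine ⟨q, a', hq1, hq.trans hU, ha.trans ?_⟩
  rw [Real.rpow_sub hXp, Real.rpow_natCast]
  exact div_le_div_of_nonneg_right hU (by positivity)

/-- DMAJ: where the exponential sum is large -/
theorem dmaj (h1 : S_PWEYL) (h2 : S_FLOOR) : S_DMAJ := by
  intro k a C0 hk ha
  obtain ⟨m, hm, hap⟩ := approx h1 k a C0 hk
  have hk0 : (0 : ℝ) ≤ k := Nat.cast_nonneg k
  refine ⟨20 * k + m + 5, by positivity, ?_⟩
  intro σ hσ0 hσ1
  rcases le_or_gt σ (1 / 20) with hσ | hσ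
  · obtain ⟨X1, hX1⟩ := hap σ hσ0 hσ
    obtain ⟨X2, hX2⟩ := large_freq h2 k a C0 (4 * σ) (by positivity)
    obtain ⟨X0, hX0⟩ := eventually_atTop.1 (((ev_rpow σ 2 hσ0).and (eventually_ge_atTop 1)).and
      ((eventually_ge_atTop X1).and (eventually_ge_atTop X2)))
    refine ⟨X0, ?_⟩
    intro X A L hX hAL β hβ hbig
    obtain ⟨⟨e1, e2⟩, e3, e4⟩ := hX0 X hX
    have hX1' : (1 : ℝ) ≤ X := by exact_mod_cast e2
    have hXp : (0 : ℝ) < X := by linarith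
    obtain ⟨h, h3, h4⟩ := hX2 X A L e4 hAL β hβ (by
      rwa [show 1 - 4 * σ / 4 = 1 - σ by ring])
    obtain ⟨q, a', h5, h6, h7⟩ := hX1 X A L e3 hAL (β + h) h4
    refine ⟨h, a', q, h5, h6.trans ?_, ?_, h7.trans ?_⟩
    · refine Real.rpow_le_rpow_of_exponent_le hX1' ?_
      nlinarith
    · have g1 : |(h : ℝ)| ≤ |β + h| + |β| := by
        have := abs_sub (β + h) β
        rwa [add_sub_cancel_left] at this
      have g2 : (X : ℝ) ^ (5 * σ) = (X : ℝ) ^ σ * (X : ℝ) ^ (4 * σ) := by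
        rw [← Real.rpow_add hXp]
        congr 1
        ring
      have g3 : 1 ≤ (X : ℝ) ^ (4 * σ) := Real.one_le_rpow hX1' (by positivity)
      have g4 : |(h : ℝ)| ≤ (X : ℝ) ^ (5 * σ) := by
        rw [g2]
        nlinarith
      refine g4.trans (Real.rpow_le_rpow_of_exponent_le hX1' ?_)
      nlinarith
    · refine Real.rpow_le_rpow_of_exponent_le hX1' ?_
      nlinarith
  · refine ⟨1, ?_⟩
    intro X A L hX hAL β hβ hbig
    have hX1' : (1 : ℝ) ≤ X := by exact_mod_cast hX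
    have g0 : (k : ℝ) ≤ (20 * k + m + 5) * σ := by nlinarith
    have g1 : 0 ≤ (20 * k + m + 5) * σ := hk0.trans g0
    refine ⟨0, round (a * β), 1, le_rfl, ?_, ?_, ?_⟩
    · rw [Nat.cast_one]
      exact Real.one_le_rpow hX1' g1
    · rw [Int.cast_zero, abs_zero]
      positivity
    · rw [Nat.cast_one, one_mul, Int.cast_zero, add_zero]
      refine (abs_sub_round (a * β)).trans ?_
      exact (by norm_num : (1 : ℝ) / 2 ≤ 1).trans (Real.one_le_rpow hX1' (by linarith))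

end Pool.Agent.N565.PDM
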